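import Pool.Agent.TH645.ZT.Ker
import Pool.Agent.TH839.ZT.Stm

/-!
# Laplace's method for the `n`-fold primitive of `exp (h w + g w)`
-/

set_option autoImplicit false

open MeasureTheory Set Metric

namespace Pool.Agent.TH645.ZT

section Tay

variable {ρ B : ℝ} {g : ℂ → ℂ}

lemma mem_ball_of {ρ : ℝ} (hρ : 0 < ρ) {w : ℂ} (hw : w ∈ closedBall (0 : ℂ) (ρ / 2)) :
    w ∈ ball (0 : ℂ) ρ := by
  rw [mem_closedBall_zero_iff] at hw
  rw [mem_ball_zero_iff]
  linarith

lemma dd_le (hρ : 0 < ρ) (hg : DifferentiableOn ℂ g (ball 0 ρ))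
    (hB : ∀ w ∈ ball (0 : ℂ) ρ, ‖deriv g w‖ ≤ B) {w : ℂ} (hw : w ∈ closedBall (0 : ℂ) (ρ / 2)) :
    ‖deriv (deriv g) w‖ ≤ B / (ρ / 4) := by
  have hsub : closedBall w (ρ / 4) ⊆ ball (0 : ℂ) ρ := by
    intro z hz
    rw [mem_closedBall_zero_iff] at hw
    rw [mem_closedBall, dist_eq_norm] at hz
    rw [mem_ball_zero_iff]
    have : ‖z‖ ≤ ‖z - w‖ + ‖w‖ := by
      have := norm_add_le (z - w) w
      rwa [sub_add_cancel] at this
    linarith
  refine Complex.norm_deriv_le_of_forall_mem_sphere_norm_le (by linarith) ?_ ?_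
  · exact ((hg.deriv isOpen_ball).mono hsub).diffContOnCl_ball subset_rfl
  · intro z hz
    exact hB z (hsub (sphere_subset_closedBall hz))

lemma lip_deriv (hρ : 0 < ρ) (hg : DifferentiableOn ℂ g (ball 0 ρ))
    (hB : ∀ w ∈ ball (0 : ℂ) ρ, ‖deriv g w‖ ≤ B) {a b : ℂ} (ha : a ∈ closedBall (0 : ℂ) (ρ / 2))
    (hb : b ∈ closedBall (0 : ℂ) (ρ / 2)) :
    ‖deriv g b - deriv g a‖ ≤ B / (ρ / 4) * ‖b - a‖ := by
  refine Convex.norm_image_sub_le_of_norm_deriv_le (s := closedBall (0 : ℂ) (ρ / 2)) ?_ ?_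
    (convex_closedBall _ _) ha hb
  · intro x hx
    exact (hg.deriv isOpen_ball).differentiableAt (isOpen_ball.mem_nhds (mem_ball_of hρ hx))
  · intro x hx
    exact dd_le hρ hg hB hx

lemma taylor2 (hρ : 0 < ρ) (hg : DifferentiableOn ℂ g (ball 0 ρ)) (hB0 : 0 ≤ B)
    (hB : ∀ w ∈ ball (0 : ℂ) ρ, ‖deriv g w‖ ≤ B) {a b : ℂ} (ha : a ∈ closedBall (0 : ℂ) (ρ / 2))
    (hb : b ∈ closedBall (0 : ℂ) (ρ / 2)) :
    ‖g b - g a - deriv g a * (b - a)‖ ≤ B / (ρ / 4) * ‖b - a‖ ^ 2 := by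
  have hd : ∀ x ∈ closedBall (0 : ℂ) (ρ / 2) ∩ closedBall a ‖b - a‖,
      HasDerivAt (fun w => g w - deriv g a * w) (deriv g x - deriv g a) x := by
    intro x hx
    have h1 : HasDerivAt g (deriv g x) x :=
      (hg.differentiableAt (isOpen_ball.mem_nhds (mem_ball_of hρ hx.1))).hasDerivAt
    have h2 : HasDerivAt (fun w : ℂ => deriv g a * w) (deriv g a) x := by
      simpa using (hasDerivAt_id x).const_mul (deriv g a)
    exact h1.sub h2
  have h := Convex.norm_image_sub_le_of_norm_hasDerivWithin_le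
    (f := fun w => g w - deriv g a * w) (f' := fun x => deriv g x - deriv g a)
    (s := closedBall (0 : ℂ) (ρ / 2) ∩ closedBall a ‖b - a‖) (x := a) (y := b)
    (C := B / (ρ / 4) * ‖b - a‖)
    (fun x hx => (hd x hx).hasDerivWithinAt) (fun x hx => ?_)
    ((convex_closedBall _ _).inter (convex_closedBall _ _))
    ⟨ha, mem_closedBall_self (norm_nonneg _)⟩ ⟨hb, by rw [mem_closedBall, dist_eq_norm]⟩
  · have e : g b - g a - deriv g a * (b - a) =
        (g b - deriv g a * b) - (g a - deriv g a * a) := by ring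
    rw [e]
    calc _ ≤ _ := h
      _ = _ := by ring
  · refine (lip_deriv hρ hg hB ha hx.1).trans ?_
    have h3 := hx.2
    rw [mem_closedBall, dist_eq_norm] at h3
    have : 0 ≤ B / (ρ / 4) := by positivity
    exact mul_le_mul_of_nonneg_left h3 this

lemma g_le (hρ : 0 < ρ) (hg : DifferentiableOn ℂ g (ball 0 ρ)) (hg0 : g 0 = 0)
    (hB : ∀ w ∈ ball (0 : ℂ) ρ, ‖deriv g w‖ ≤ B) {a : ℂ} (ha : a ∈ closedBall (0 : ℂ) (ρ / 2)) :
    ‖g a‖ ≤ B * ‖a‖ := by
  have := Convex.norm_image_sub_le_of_norm_deriv_le (f := g) (s := closedBall (0 : ℂ) (ρ / 2))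
    (x := 0) (y := a) (C := B) (fun x hx =>
      hg.differentiableAt (isOpen_ball.mem_nhds (mem_ball_of hρ hx)))
    (fun x hx => hB x (mem_ball_of hρ hx)) (convex_closedBall _ _)
    (by rw [mem_closedBall_zero_iff]; simp; linarith) ha
  simpa [hg0] using this

end Tay

/-- The saddle point. -/
lemma saddle {ρ h : ℝ} {n : ℕ} {g : ℂ → ℂ} (hρ : 0 < ρ) (hρ1 : ρ ≤ 1) (hn : 1 ≤ n)
    (hnh : (n : ℝ) ≤ ρ / 100 * h) (hg : DifferentiableOn ℂ g (ball 0 ρ))
    (hB : ∀ w ∈ ball (0 : ℂ) ρ, ‖deriv g w‖ ≤ 1 / 1000 * h) :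
    ∃ w : ℂ, w ∈ closedBall (0 : ℂ) (ρ / 50) ∧ w * (h + deriv g (-w)) = n := by
  have hn0 : (0 : ℝ) < n := by exact_mod_cast hn
  have hh : 0 < h := by
    by_contra hcon
    push Not at hcon
    nlinarith
  have hρh : 0 < ρ * h := mul_pos hρ hh
  set r₀ : ℝ := 2 * n / h with hr₀
  have hr0 : 0 ≤ r₀ := by positivity
  have hr1 : r₀ ≤ ρ / 50 := by
    rw [hr₀, div_le_iff₀ hh]
    nlinarith
  have hneg : ∀ w ∈ closedBall (0 : ℂ) r₀, -w ∈ closedBall (0 : ℂ) (ρ / 2) := by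
    intro w hw
    rw [mem_closedBall_zero_iff] at hw ⊢
    rw [norm_neg]
    linarith
  have hden : ∀ w ∈ closedBall (0 : ℂ) r₀, 999 / 1000 * h ≤ ‖(h : ℂ) + deriv g (-w)‖ := by
    intro w hw
    have h1 := hB (-w) (mem_ball_of hρ (hneg w hw))
    have h2 := norm_sub_le_norm_add (h : ℂ) (deriv g (-w))
    rw [Complex.norm_real, Real.norm_eq_abs, abs_of_pos hh] at h2
    linarith
  set T : ℂ → ℂ := fun w => n / ((h : ℂ) + deriv g (-w)) with hT
  have hmaps : MapsTo T (closedBall (0 : ℂ) r₀) (closedBall (0 : ℂ) r₀) := by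
    intro w hw
    have h1 := hden w hw
    have h2 : 0 < ‖(h : ℂ) + deriv g (-w)‖ := by
      have : 0 < 999 / 1000 * h := by positivity
      linarith
    rw [mem_closedBall_zero_iff, hT]
    simp only [norm_div, Complex.norm_natCast]
    rw [div_le_iff₀ h2, hr₀]
    have h3 : 2 * (n : ℝ) / h * (999 / 1000 * h) ≤ 2 * n / h * ‖(h : ℂ) + deriv g (-w)‖ :=
      mul_le_mul_of_nonneg_left h1 (by positivity)
    have h4 : 2 * (n : ℝ) / h * (999 / 1000 * h) = 1998 / 1000 * n := by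
      field_simp
      ring
    nlinarith
  have hlip : LipschitzWith (1 / 2) (hmaps.restrict T _ _) := by
    apply LipschitzWith.of_dist_le_mul
    rintro ⟨x, hx⟩ ⟨y, hy⟩
    have hx1 := hden x hx
    have hy1 := hden y hy
    have hpos : 0 < 999 / 1000 * h := by positivity
    have hx2 : 0 < ‖(h : ℂ) + deriv g (-x)‖ := by linarith
    have hy2 : 0 < ‖(h : ℂ) + deriv g (-y)‖ := by linarith
    have hx3 : (h : ℂ) + deriv g (-x) ≠ 0 := norm_pos_iff.1 hx2
    have hy3 : (h : ℂ) + deriv g (-y) ≠ 0 := norm_pos_iff.1 hy2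
    show dist (T x) (T y) ≤ ((1 / 2 : NNReal) : ℝ) * dist x y
    rw [dist_eq_norm, dist_eq_norm, hT]
    have e1 : (n : ℂ) / (h + deriv g (-x)) - n / (h + deriv g (-y)) =
        n * (deriv g (-y) - deriv g (-x)) / ((h + deriv g (-x)) * (h + deriv g (-y))) := by
      field_simp
      ring
    have hl := lip_deriv hρ hg hB (hneg x hx) (hneg y hy)
    have e2 : -y - -x = x - y := by ring
    rw [e2] at hl
    simp only [e1, norm_div, norm_mul, Complex.norm_natCast]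
    rw [div_le_iff₀ (mul_pos hx2 hy2)]
    have h5 : (999 / 1000 * h) * (999 / 1000 * h) ≤
        ‖(h : ℂ) + deriv g (-x)‖ * ‖(h : ℂ) + deriv g (-y)‖ :=
      mul_le_mul hx1 hy1 hpos.le hx2.le
    have h6 : (n : ℝ) * ‖deriv g (-y) - deriv g (-x)‖ ≤
        n * (1 / 1000 * h / (ρ / 4) * ‖x - y‖) := mul_le_mul_of_nonneg_left hl hn0.le
    have h7 : (n : ℝ) * (1 / 1000 * h / (ρ / 4) * ‖x - y‖) ≤
        (ρ / 100 * h) * (1 / 1000 * h / (ρ / 4) * ‖x - y‖) :=
      mul_le_mul_of_nonneg_right hnh (by positivity)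
    have h8 : (ρ / 100 * h) * (1 / 1000 * h / (ρ / 4) * ‖x - y‖) =
        1 / 25000 * h ^ 2 * ‖x - y‖ := by
      field_simp
      ring
    have h9 : ((1 / 2 : NNReal) : ℝ) = 1 / 2 := by norm_num
    rw [h9]
    have h10 : 0 ≤ ‖x - y‖ := norm_nonneg _
    have h11 : 1 / 2 * ‖x - y‖ * ((999 / 1000 * h) * (999 / 1000 * h)) ≤
        1 / 2 * ‖x - y‖ * (‖(h : ℂ) + deriv g (-x)‖ * ‖(h : ℂ) + deriv g (-y)‖) :=
      mul_le_mul_of_nonneg_left h5 (by positivity)
    have h12 : 1 / 25000 * h ^ 2 * ‖x - y‖ ≤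
        1 / 2 * ‖x - y‖ * ((999 / 1000 * h) * (999 / 1000 * h)) := by
      have : 0 ≤ h ^ 2 * ‖x - y‖ := by positivity
      nlinarith
    linarith
  have hcon : ContractingWith (1 / 2) (hmaps.restrict T _ _) := by
    refine ⟨?_, hlip⟩
    rw [← NNReal.coe_lt_coe]
    norm_num
  obtain ⟨w, hw, hfix, -⟩ := ContractingWith.exists_fixedPoint' (isClosed_closedBall.isComplete)
    hmaps hcon (mem_closedBall_self hr0) (edist_ne_top _ _)
  refine ⟨w, closedBall_subset_closedBall hr1 hw, ?_⟩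
  have h1 : (n : ℂ) / ((h : ℂ) + deriv g (-w)) = w := hfix
  have h2 : (h : ℂ) + deriv g (-w) ≠ 0 := by
    have := hden w hw
    have hpos : 0 < 999 / 1000 * h := by positivity
    exact norm_pos_iff.1 (by linarith)
  rw [div_eq_iff h2] at h1
  exact h1.symm

theorem sad : Pool.Agent.TH839.ZT.S_SAD := by
  refine ⟨1 / 1000, by norm_num, fun ρ hρ hρ1 => ⟨ρ / 100, 1, by positivity, ?_⟩⟩
  intro h n g hh1 hn hnh hg hg0 hB
  have hh : 0 < h := by linarith
  have hn0 : (0 : ℝ) < n := by exact_mod_cast hn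
  obtain ⟨w, hw, hfix⟩ := saddle hρ hρ1 hn hnh hg hB
  have hw50 : ‖w‖ ≤ ρ / 50 := mem_closedBall_zero_iff.1 hw
  set γ : ℂ := deriv g (-w) with hγ
  have hmw : -w ∈ closedBall (0 : ℂ) (ρ / 2) := by
    rw [mem_closedBall_zero_iff, norm_neg]
    linarith
  have hγB : ‖γ‖ ≤ 1 / 1000 * h := hB _ (mem_ball_of hρ hmw)
  have hD1 : 999 / 1000 * h ≤ ‖(h : ℂ) + γ‖ := by
    have h2 := norm_sub_le_norm_add (h : ℂ) γ
    rw [Complex.norm_real, Real.norm_eq_abs, abs_of_pos hh] at h2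
    linarith
  have hD2 : ‖(h : ℂ) + γ‖ ≤ 1001 / 1000 * h := by
    have h2 := norm_add_le (h : ℂ) γ
    rw [Complex.norm_real, Real.norm_eq_abs, abs_of_pos hh] at h2
    linarith
  have hDpos : 0 < ‖(h : ℂ) + γ‖ := by
    have : 0 < 999 / 1000 * h := by positivity
    linarith
  set r : ℝ := ‖w‖ with hr
  have hrD : r * ‖(h : ℂ) + γ‖ = n := by
    have := congrArg norm hfix
    rwa [norm_mul, Complex.norm_natCast] at this
  have hr0 : 0 < r := by
    rcases (norm_nonneg w).lt_or_eq with h1 | h1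
    · exact h1
    · exfalso
      rw [hr, ← h1, zero_mul] at hrD
      linarith
  -- `999/1000 r h ≤ n ≤ 1001/1000 r h`
  have hrn1 : 999 / 1000 * (r * h) ≤ n := by
    rw [← hrD]
    nlinarith
  have hrn2 : (n : ℝ) ≤ 1001 / 1000 * (r * h) := by
    rw [← hrD]
    nlinarith
  set e : ℂ := w / (r : ℂ) with he
  have hrC : (r : ℂ) ≠ 0 := by exact_mod_cast hr0.ne'
  have hre : (r : ℂ) * e = w := by
    rw [he]
    field_simp
  have hen : ‖e‖ = 1 := by
    rw [he, norm_div, Complex.norm_real, Real.norm_eq_abs, abs_of_pos hr0]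
    exact div_self hr0.ne'
  refine ⟨e, hen, ?_, ?_⟩
  · -- ‖e - 1‖ ≤ 1/8
    have hDne : (h : ℂ) + γ ≠ 0 := norm_pos_iff.1 hDpos
    have h1 : (e - 1) * ((h : ℂ) + γ) = (‖(h : ℂ) + γ‖ : ℂ) - (h + γ) := by
      have : e * ((h : ℂ) + γ) = (‖(h : ℂ) + γ‖ : ℂ) := by
        have h2 : (r : ℂ) * (e * ((h : ℂ) + γ)) = (r : ℂ) * (‖(h : ℂ) + γ‖ : ℂ) := by
          rw [← mul_assoc, hre, hfix]
          exact_mod_cast hrD.symm
        exact mul_left_cancel₀ hrC h2
      rw [sub_mul, this, one_mul]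
    have h2 : ‖(‖(h : ℂ) + γ‖ : ℂ) - (h + γ)‖ ≤ 2 / 1000 * h := by
      have e1 : (‖(h : ℂ) + γ‖ : ℂ) - (h + γ) = ((‖(h : ℂ) + γ‖ - h : ℝ) : ℂ) - γ := by
        push_cast
        ring
      rw [e1]
      refine (norm_sub_le _ _).trans ?_
      rw [Complex.norm_real, Real.norm_eq_abs]
      have : |‖(h : ℂ) + γ‖ - h| ≤ 1 / 1000 * h := by
        rw [abs_le]
        constructor <;> linarith
      linarith
    have h3 := congrArg norm h1
    rw [norm_mul] at h3
    have h4 : ‖e - 1‖ * (999 / 1000 * h) ≤ 2 / 1000 * h := by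
      calc ‖e - 1‖ * (999 / 1000 * h) ≤ ‖e - 1‖ * ‖(h : ℂ) + γ‖ :=
            mul_le_mul_of_nonneg_left hD1 (norm_nonneg _)
        _ ≤ _ := by rw [h3]; exact h2
    by_contra hcon
    push Not at hcon
    have h5 : 1 / 8 * (999 / 1000 * h) ≤ ‖e - 1‖ * (999 / 1000 * h) :=
      mul_le_mul_of_nonneg_right hcon.le (by positivity)
    linarith
  -- the integral
  set Y : ℝ := ρ / (2 * r) with hY
  have hrY : r * Y = ρ / 2 := by
    rw [hY]
    field_simp
  have hY4 : 4 ≤ Y := by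
    rw [hY, le_div_iff₀ (by positivity)]
    linarith
  set φ : ℂ := -(h * w) + g (-w) with hφ
  set R : ℝ → ℂ := fun y => g (-(y * w)) - g (-w) + γ * ((y - 1) * w) with hR
  have hyw : ∀ y ∈ Icc 0 Y, -((y : ℂ) * w) ∈ closedBall (0 : ℂ) (ρ / 2) := by
    intro y hy
    rw [mem_closedBall_zero_iff, norm_neg, norm_mul, Complex.norm_real, Real.norm_eq_abs,
      abs_of_nonneg hy.1, ← hrY]
    have := mul_le_mul_of_nonneg_right hy.2 hr0.le
    linarith
  have hRc : ContinuousOn R (Icc 0 Y) := by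
    rw [hR]
    have h1 : ContinuousOn (fun y : ℝ => g (-(y * w))) (Icc 0 Y) := by
      refine ContinuousOn.comp (t := ball 0 ρ) hg.continuousOn ?_ ?_
      · fun_prop
      · intro y hy
        exact mem_ball_of hρ (hyw y hy)
    refine (h1.sub continuousOn_const).add ?_
    fun_prop
  have hM : ∀ y ∈ Icc 0 Y, ‖R y‖ ≤ 1 / 1000 * h / (ρ / 4) * (r ^ 2 * (y - 1) ^ 2) := by
    intro y hy
    have h1 := taylor2 hρ hg (B := 1 / 1000 * h) (by positivity) hB hmw (hyw y hy)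
    have e1 : g (-((y : ℂ) * w)) - g (-w) - deriv g (-w) * (-((y : ℂ) * w) - -w) = R y := by
      rw [hR, hγ]
      ring
    have e2 : ‖-((y : ℂ) * w) - -w‖ ^ 2 = r ^ 2 * (y - 1) ^ 2 := by
      have : -((y : ℂ) * w) - -w = -(((y - 1 : ℝ) : ℂ) * w) := by
        push_cast
        ring
      rw [this, norm_neg, norm_mul, Complex.norm_real, Real.norm_eq_abs, mul_pow, sq_abs]
      ring
    rw [e1, e2] at h1
    exact h1
  have hr2 : 1 / 1000 * h / (ρ / 4) * r ^ 2 ≤ 1 / 128 * n := by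
    have h1 : 1 / 1000 * h / (ρ / 4) * r ^ 2 = (r * h) * (1 / 250 * (r / ρ)) := by
      field_simp
      ring
    have h2 : r / ρ ≤ 1 / 50 := by
      rw [div_le_iff₀ hρ]
      linarith
    have h3 : (r * h) * (1 / 250 * (r / ρ)) ≤ (r * h) * (1 / 250 * (1 / 50)) := by
      gcongr
    have h4 : 0 < r * h := mul_pos hr0 hh
    rw [h1]
    nlinarith
  have hb1 : ∀ y ∈ Ioc 0 Y, ‖R y‖ ≤ 1 / 128 * (n * (y - 1) ^ 2) := by
    intro y hy
    refine (hM y ⟨hy.1.le, hy.2⟩).trans ?_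
    calc 1 / 1000 * h / (ρ / 4) * (r ^ 2 * (y - 1) ^ 2)
        = (1 / 1000 * h / (ρ / 4) * r ^ 2) * (y - 1) ^ 2 := by ring
      _ ≤ (1 / 128 * n) * (y - 1) ^ 2 := by gcongr
      _ = _ := by ring
  have hb2 : ∀ y ∈ Ioc 0 Y, ‖R y‖ ≤ n / 2 * d y := by
    intro y hy
    have hy0 : 0 < y := hy.1
    have hd := d_ge hy0
    have hd0 := d_nonneg hy0
    rcases le_total y 2 with h2 | h2
    · have h3 : (y - 1) ^ 2 / 4 ≤ d y := by
        refine le_trans ?_ hd
        apply div_le_div_of_nonneg_left (sq_nonneg _) (by positivity)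
        have : max 1 y ≤ 2 := max_le (by norm_num) h2
        linarith
      have h4 := hb1 y hy
      have h5 : 1 / 128 * ((n : ℝ) * (y - 1) ^ 2) ≤ 1 / 128 * (n * (4 * d y)) := by
        gcongr
        linarith
      have h6 : 0 ≤ n * d y := by positivity
      nlinarith
    · have h3 : (y - 1) / 4 ≤ d y := by
        refine le_trans ?_ hd
        rw [max_eq_right (by linarith), le_div_iff₀ (by positivity)]
        nlinarith
      have h4 := hM y ⟨hy.1.le, hy.2⟩
      have h5 : (y - 1) ^ 2 ≤ Y * (y - 1) := by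
        have : y - 1 ≤ Y := by linarith [hy.2]
        nlinarith
      have h6 : 1 / 1000 * h / (ρ / 4) * (r ^ 2 * (y - 1) ^ 2) ≤
          1 / 1000 * h / (ρ / 4) * (r ^ 2 * (Y * (y - 1))) := by
        gcongr
      have h7 : 1 / 1000 * h / (ρ / 4) * (r ^ 2 * (Y * (y - 1))) =
          1 / 500 * (r * h) * (y - 1) := by
        have : r ^ 2 * (Y * (y - 1)) = r * (r * Y) * (y - 1) := by ring
        rw [this, hrY]
        field_simp
        ring
      have h8 : 0 < r * h := mul_pos hr0 hh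
      have h9 : 1 / 500 * (r * h) * (y - 1) ≤ n / 8 * (y - 1) := by
        have : 1 / 500 * (r * h) ≤ n / 8 := by linarith
        have h10 : 0 ≤ y - 1 := by linarith
        nlinarith
      have h11 : n / 8 * (y - 1) ≤ n / 2 * d y := by
        have : (n : ℝ) / 8 * (y - 1) = n / 2 * ((y - 1) / 4) := by ring
        rw [this]
        gcongr
      linarith
  have hK := ker n hn Y (1 / 128) hY4 (by norm_num) le_rfl R hRc hb1 hb2
  set K : ℂ := ∫ y in (0 : ℝ)..Y, (y : ℂ) ^ (n - 1) * Complex.exp (-(n * (y - 1))) *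
      Complex.exp (R y) with hKdef
  -- substitution
  have hsubst : ∫ v in (0 : ℝ)..(ρ / 2), (v : ℂ) ^ (n - 1) / ((n - 1).factorial : ℂ) *
      Complex.exp (-(h * (v * e)) + g (-(v * e))) =
      (r : ℂ) ^ n / ((n - 1).factorial : ℂ) * Complex.exp φ * K := by
    have h1 := intervalIntegral.smul_integral_comp_mul_left (a := 0) (b := Y)
      (fun v : ℝ => (v : ℂ) ^ (n - 1) / ((n - 1).factorial : ℂ) *
        Complex.exp (-(h * (v * e)) + g (-(v * e)))) r
    rw [mul_zero, hrY] at h1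
    rw [← h1]
    have h2 : ∀ y : ℝ, ((r * y : ℝ) : ℂ) ^ (n - 1) / ((n - 1).factorial : ℂ) *
        Complex.exp (-(h * ((r * y : ℝ) * e)) + g (-((r * y : ℝ) * e))) =
        (r : ℂ) ^ (n - 1) / ((n - 1).factorial : ℂ) * Complex.exp φ *
          ((y : ℂ) ^ (n - 1) * Complex.exp (-(n * (y - 1))) * Complex.exp (R y)) := by
      intro y
      have e1 : ((r * y : ℝ) : ℂ) * e = y * w := by
        rw [← hre]
        push_cast
        ring
      rw [e1]
      have e2 : -((h : ℂ) * (y * w)) + g (-(y * w)) = φ + (-(n * (y - 1)) + R y) := by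
        rw [hφ, hR, ← hfix]
        ring
      rw [e2, Complex.exp_add φ, Complex.exp_add (-((n : ℂ) * (y - 1)))]
      push_cast
      rw [mul_pow]
      ring
    simp only [h2]
    rw [intervalIntegral.integral_const_mul, ← hKdef, Complex.real_smul]
    obtain ⟨m, rfl⟩ : ∃ m, n = m + 1 := ⟨n - 1, by omega⟩
    simp only [Nat.add_sub_cancel, pow_succ]
    ring
  rw [hsubst, norm_mul, norm_mul, norm_div, norm_pow, Complex.norm_real, Real.norm_eq_abs,
    abs_of_pos hr0, Complex.norm_natCast, Complex.norm_exp]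
  -- the real part of φ
  have hφre : -(1 / 400 * (n : ℝ)) ≤ n + φ.re := by
    have e1 : φ + n = g (-w) + w * γ := by
      rw [hφ, ← hfix]
      ring
    have h1 : ‖φ + n‖ ≤ 2 / 1000 * (r * h) := by
      rw [e1]
      refine (norm_add_le _ _).trans ?_
      have h2 := g_le hρ hg hg0 hB hmw
      rw [norm_neg] at h2
      have h3 : ‖w * γ‖ ≤ r * (1 / 1000 * h) := by
        rw [norm_mul]
        gcongr
      have h4 : ‖g (-w)‖ ≤ 1 / 1000 * h * r := h2
      nlinarith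
    have h5 : -‖φ + n‖ ≤ (φ + n).re := by
      have := Complex.abs_re_le_norm (φ + n)
      exact (abs_le.1 this).1
    rw [Complex.add_re, Complex.natCast_re] at h5
    linarith
  have hfac : (0 : ℝ) < ((n - 1).factorial : ℝ) := by exact_mod_cast Nat.factorial_pos _
  have hLn : L n = Real.exp n * ((n - 1).factorial : ℝ) / (n : ℝ) ^ n := by
    unfold L
    rw [Real.rpow_natCast]
    congr 2
    obtain ⟨m, rfl⟩ : ∃ m, n = m + 1 := ⟨n - 1, by omega⟩
    rw [Nat.add_sub_cancel]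
    push_cast
    exact Real.Gamma_nat_eq_factorial m
  have hnn : (0 : ℝ) < (n : ℝ) ^ n := by positivity
  have h1 : r ^ n / ((n - 1).factorial : ℝ) * Real.exp φ.re * (L n / 2) ≤
      r ^ n / ((n - 1).factorial : ℝ) * Real.exp φ.re * ‖K‖ := by
    gcongr
  refine le_trans ?_ h1
  have h2 : r ^ n / ((n - 1).factorial : ℝ) * Real.exp φ.re * (L n / 2) =
      1 / 2 * ((r / n) ^ n * Real.exp (n + φ.re)) := by
    rw [hLn, Real.exp_add, div_pow]
    field_simp
  rw [h2]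
  have h3 : (1 / (2 * h)) ^ n ≤ (r / n) ^ n * Real.exp (n + φ.re) := by
    have h4 : Real.exp (-(1 / 400 : ℝ)) ^ n ≤ Real.exp (n + φ.re) := by
      rw [← Real.exp_nat_mul]
      apply Real.exp_le_exp.2
      linarith
    have h5 : (1 / (2 * h)) ^ n ≤ (r / n * Real.exp (-(1 / 400 : ℝ))) ^ n := by
      apply pow_le_pow_left₀ (by positivity)
      have h6 : (399 / 400 : ℝ) ≤ Real.exp (-(1 / 400 : ℝ)) := by
        have := Real.add_one_le_exp (-(1 / 400) : ℝ)
        linarith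
      have h7 : 1000 / 1001 / h ≤ r / n := by
        rw [div_le_div_iff₀ hh hn0]
        linarith
      calc 1 / (2 * h) = (1 / 2) / h := by
            field_simp
        _ ≤ (1000 / 1001 * (399 / 400)) / h := by
            gcongr
            norm_num
        _ = (1000 / 1001 / h) * (399 / 400) := by ring
        _ ≤ r / n * Real.exp (-(1 / 400 : ℝ)) := by
            gcongr
    refine h5.trans ?_
    rw [mul_pow]
    gcongr
  have h4 : ((4 * h) ^ n)⁻¹ ≤ 1 / 2 * (1 / (2 * h)) ^ n := by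
    have e1 : (1 / (2 * h)) ^ n = 2 ^ n * ((4 * h) ^ n)⁻¹ := by
      rw [show 1 / (2 * h) = 2 * (4 * h)⁻¹ by field_simp; norm_num, mul_pow, inv_pow]
    rw [e1]
    have h5 : (2 : ℝ) ≤ 2 ^ n := by
      calc (2 : ℝ) = 2 ^ 1 := by norm_num
        _ ≤ 2 ^ n := pow_le_pow_right₀ (by norm_num) hn
    have h6 : 0 < ((4 * h) ^ n)⁻¹ := by positivity
    nlinarith
  linarith [mul_le_mul_of_nonneg_left h3 (show (0 : ℝ) ≤ 1 / 2 by norm_num)]

end Pool.Agent.TH645.ZT
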