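import Mathlib

/-!
# Laplace integrals of Gamma type
-/

set_option autoImplicit false

open MeasureTheory Set

namespace Pool.Agent.TH645.ZT

/-- The rate function. -/
noncomputable def d (y : ℝ) : ℝ := y - 1 - Real.log y

lemma d_ge {y : ℝ} (hy : 0 < y) : (y - 1) ^ 2 / (2 * max 1 y) ≤ d y := by
  unfold d
  rcases le_total 1 y with h | h
  · rw [max_eq_right h]
    have h1 : Real.log y ≤ Real.sinh (Real.log y) :=
      Real.self_le_sinh_iff.2 (Real.log_nonneg h)
    rw [Real.sinh_eq, Real.exp_log hy, Real.exp_neg, Real.exp_log hy] at h1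
    have h2 : (y - 1) ^ 2 / (2 * y) = y - 1 - (y - y⁻¹) / 2 := by
      field_simp
      ring
    rw [h2]
    linarith
  · rw [max_eq_left h]
    have hx : 0 ≤ (1 - y) / y := div_nonneg (by linarith) hy.le
    have h1 := Real.le_log_one_add_of_nonneg hx
    have h2 : 1 + (1 - y) / y = y⁻¹ := by
      field_simp
      ring
    rw [h2, Real.log_inv] at h1
    have h3 : 2 * ((1 - y) / y) / ((1 - y) / y + 2) = 2 * (1 - y) / (1 + y) := by
      have : (1 - y) / y + 2 = (1 + y) / y := by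
        field_simp
        ring
      rw [this]
      field_simp
    rw [h3] at h1
    have h4 : (1 - y) + (1 - y) ^ 2 / 2 ≤ 2 * (1 - y) / (1 + y) := by
      rw [le_div_iff₀ (by linarith)]
      have h5 : 0 ≤ 1 - y := by linarith
      have h6 : 0 ≤ (1 - y) ^ 3 := pow_nonneg h5 3
      nlinarith
    nlinarith

lemma d_le {y : ℝ} (hy : 1 ≤ y) : d y ≤ (y - 1) ^ 2 / 2 := by
  unfold d
  have hx : 0 ≤ y - 1 := by linarith
  have h1 := Real.le_log_one_add_of_nonneg hx
  have h2 : 1 + (y - 1) = y := by ring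
  rw [h2] at h1
  have h3 : (y - 1) - (y - 1) ^ 2 / 2 ≤ 2 * (y - 1) / (y - 1 + 2) := by
    rw [le_div_iff₀ (by linarith)]
    have h6 : 0 ≤ (y - 1) ^ 3 := pow_nonneg hx 3
    nlinarith
  linarith

lemma d_nonneg {y : ℝ} (hy : 0 < y) : 0 ≤ d y :=
  le_trans (by positivity) (d_ge hy)

/-- The weight. -/
noncomputable def W (s y : ℝ) : ℝ := y ^ (s - 1) * Real.exp (-(s * (y - 1)))

lemma W_nonneg (s : ℝ) {y : ℝ} (hy : 0 < y) : 0 ≤ W s y := by
  unfold W
  positivity

lemma W_eq (s : ℝ) {y : ℝ} (hy : 0 < y) : W s y = y⁻¹ * Real.exp (-(s * d y)) := by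
  unfold W d
  rw [Real.rpow_sub_one hy.ne', Real.rpow_def_of_pos hy,
    show -(s * (y - 1 - Real.log y)) = Real.log y * s + -(s * (y - 1)) by ring, Real.exp_add]
  field_simp

/-- The total mass. -/
noncomputable def L (s : ℝ) : ℝ := Real.exp s * Real.Gamma s / s ^ s

lemma L_pos {s : ℝ} (hs : 0 < s) : 0 < L s := by
  unfold L
  have := Real.Gamma_pos_of_pos hs
  have := Real.rpow_pos_of_pos hs s
  positivity

lemma int0 {a s : ℝ} (ha : 0 < a) (hs : 0 < s) :
    IntegrableOn (fun y : ℝ => y ^ (a - 1) * Real.exp (-(s * y))) (Ioi 0) := by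
  have := integrableOn_rpow_mul_exp_neg_mul_rpow (p := 1) (s := a - 1) (b := s) (by linarith)
    one_pos hs
  refine this.congr_fun (fun y _ => ?_) measurableSet_Ioi
  simp only [Real.rpow_one, neg_mul]

lemma W_split (s y : ℝ) : W s y = Real.exp s * (y ^ (s - 1) * Real.exp (-(s * y))) := by
  unfold W
  rw [show -(s * (y - 1)) = s + -(s * y) by ring, Real.exp_add]
  ring

lemma W_int {s : ℝ} (hs : 0 < s) : IntegrableOn (W s) (Ioi 0) := by
  have h : IntegrableOn (fun y : ℝ => Real.exp s * (y ^ (s - 1) * Real.exp (-(s * y)))) (Ioi 0) :=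
    (int0 hs hs).const_mul (Real.exp s)
  refine h.congr_fun (fun y _ => ?_) measurableSet_Ioi
  exact (W_split s y).symm

lemma W_integral {s : ℝ} (hs : 0 < s) : ∫ y in Ioi (0 : ℝ), W s y = L s := by
  have h1 : ∫ y in Ioi (0 : ℝ), W s y =
      ∫ y in Ioi (0 : ℝ), Real.exp s * (y ^ (s - 1) * Real.exp (-(s * y))) :=
    setIntegral_congr_fun measurableSet_Ioi (fun y _ => W_split s y)
  rw [h1, integral_const_mul, Real.integral_rpow_mul_exp_neg_mul_Ioi hs hs]
  unfold L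
  rw [one_div, Real.inv_rpow hs.le]
  field_simp

lemma W2_split {s y : ℝ} (hy : 0 < y) : W s y * (y - 1) ^ 2 =
    Real.exp s * (y ^ (s + 2 - 1) * Real.exp (-(s * y)) -
      2 * (y ^ (s + 1 - 1) * Real.exp (-(s * y))) + y ^ (s - 1) * Real.exp (-(s * y))) := by
  rw [W_split, show s + 2 - 1 = s - 1 + 1 + 1 by ring, show s + 1 - 1 = s - 1 + 1 by ring,
    Real.rpow_add_one hy.ne', Real.rpow_add_one hy.ne']
  ring

lemma W2_int {s : ℝ} (hs : 0 < s) : IntegrableOn (fun y => W s y * (y - 1) ^ 2) (Ioi 0) := by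
  have h : IntegrableOn (fun y : ℝ => Real.exp s * (y ^ (s + 2 - 1) * Real.exp (-(s * y)) -
      2 * (y ^ (s + 1 - 1) * Real.exp (-(s * y))) + y ^ (s - 1) * Real.exp (-(s * y)))) (Ioi 0) :=
    (((int0 (show 0 < s + 2 by linarith) hs).sub
    ((int0 (show 0 < s + 1 by linarith) hs).const_mul 2)).add (int0 hs hs)).const_mul (Real.exp s)
  refine h.congr_fun (fun y hy => ?_) measurableSet_Ioi
  exact (W2_split hy).symm

lemma W2_integral {s : ℝ} (hs : 0 < s) :
    ∫ y in Ioi (0 : ℝ), W s y * (y - 1) ^ 2 = L s / s := by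
  have h1 : ∫ y in Ioi (0 : ℝ), W s y * (y - 1) ^ 2 =
      ∫ y in Ioi (0 : ℝ), Real.exp s * (y ^ (s + 2 - 1) * Real.exp (-(s * y)) -
      2 * (y ^ (s + 1 - 1) * Real.exp (-(s * y))) + y ^ (s - 1) * Real.exp (-(s * y))) :=
    setIntegral_congr_fun measurableSet_Ioi (fun y hy => W2_split hy)
  have i2 := int0 (show 0 < s + 2 by linarith) hs
  have i1 := int0 (show 0 < s + 1 by linarith) hs
  have i0 := int0 hs hs
  have a1 : ∫ y in Ioi (0 : ℝ), (y ^ (s + 2 - 1) * Real.exp (-(s * y)) -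
      2 * (y ^ (s + 1 - 1) * Real.exp (-(s * y))) + y ^ (s - 1) * Real.exp (-(s * y))) =
      (∫ y in Ioi (0 : ℝ), (y ^ (s + 2 - 1) * Real.exp (-(s * y)) -
      2 * (y ^ (s + 1 - 1) * Real.exp (-(s * y))))) +
      ∫ y in Ioi (0 : ℝ), y ^ (s - 1) * Real.exp (-(s * y)) :=
    integral_add (i2.sub (i1.const_mul 2)) i0
  have a2 : ∫ y in Ioi (0 : ℝ), (y ^ (s + 2 - 1) * Real.exp (-(s * y)) -
      2 * (y ^ (s + 1 - 1) * Real.exp (-(s * y)))) =
      (∫ y in Ioi (0 : ℝ), y ^ (s + 2 - 1) * Real.exp (-(s * y))) -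
      ∫ y in Ioi (0 : ℝ), 2 * (y ^ (s + 1 - 1) * Real.exp (-(s * y))) :=
    integral_sub i2 (i1.const_mul 2)
  rw [h1, integral_const_mul, a1, a2, integral_const_mul,
    Real.integral_rpow_mul_exp_neg_mul_Ioi hs hs,
    Real.integral_rpow_mul_exp_neg_mul_Ioi (show 0 < s + 1 by linarith) hs,
    Real.integral_rpow_mul_exp_neg_mul_Ioi (show 0 < s + 2 by linarith) hs]
  have g1 : Real.Gamma (s + 1) = s * Real.Gamma s := Real.Gamma_add_one hs.ne'
  have g2 : Real.Gamma (s + 2) = (s + 1) * (s * Real.Gamma s) := by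
    rw [show s + 2 = s + 1 + 1 by ring, Real.Gamma_add_one (by linarith), g1]
  have hi : 0 < 1 / s := by positivity
  have p1 : (1 / s) ^ (s + 1) = (1 / s) ^ s * (1 / s) := Real.rpow_add_one hi.ne' s
  have p2 : (1 / s) ^ (s + 2) = (1 / s) ^ s * (1 / s) * (1 / s) := by
    rw [show s + 2 = s + 1 + 1 by ring, Real.rpow_add_one hi.ne', p1]
  have p0 : (1 / s) ^ s = (s ^ s)⁻¹ := by
    rw [one_div, Real.inv_rpow hs.le]
  rw [g1, g2, p1, p2, p0]
  unfold L
  have := Real.rpow_pos_of_pos hs s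
  field_simp
  ring

/-- Comparison of the masses of `s` and `2 s`. -/
lemma L_two {s : ℝ} (hs : 1 / 2 ≤ s) : L s ≤ 16 * L (2 * s) := by
  have hs0 : 0 < s := by linarith
  have hG := Real.Gamma_pos_of_pos hs0
  have hp := Real.rpow_pos_of_pos hs0 s
  have hq : 0 < Real.sqrt s := Real.sqrt_pos.2 hs0
  -- lower bound for Gamma (s + 1/2)
  have hI : IntegrableOn (fun y : ℝ => y ^ (s + 1 / 2 - 1) * Real.exp (-(s * y))) (Ioi 0) :=
    int0 (by linarith) hs0
  have key : 1 / 4 * Real.exp (-s) * (1 / Real.sqrt s) ≤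
      ∫ y in Ioi (0 : ℝ), y ^ (s + 1 / 2 - 1) * Real.exp (-(s * y)) := by
    have hsub : Ioc 1 (1 + 1 / Real.sqrt s) ⊆ Ioi (0 : ℝ) := fun y hy => by
      have := hy.1
      show 0 < y
      linarith
    have h1 : ∫ y in Ioc 1 (1 + 1 / Real.sqrt s), y ^ (s + 1 / 2 - 1) * Real.exp (-(s * y)) ≤
        ∫ y in Ioi (0 : ℝ), y ^ (s + 1 / 2 - 1) * Real.exp (-(s * y)) := by
      refine setIntegral_mono_set hI ?_ (Filter.Eventually.of_forall hsub)
      refine (ae_restrict_iff' measurableSet_Ioi).2 (Filter.Eventually.of_forall fun y hy => ?_)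
      have : (0 : ℝ) < y := hy
      show (0 : ℝ) ≤ y ^ (s + 1 / 2 - 1) * Real.exp (-(s * y))
      positivity
    refine le_trans ?_ h1
    have h2 : ∫ _ in Ioc 1 (1 + 1 / Real.sqrt s), 1 / 4 * Real.exp (-s) =
        1 / 4 * Real.exp (-s) * (1 / Real.sqrt s) := by
      rw [setIntegral_const, Real.volume_real_Ioc_of_le (by simp)]
      simp only [smul_eq_mul]
      ring
    rw [← h2]
    refine setIntegral_mono_on (integrableOn_const (by simp) ) (hI.mono_set hsub)
      measurableSet_Ioc (fun y hy => ?_)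
    have hy1 : 1 ≤ y := hy.1.le
    have hy0 : 0 < y := by linarith
    have hsq : 1 / 2 ≤ Real.sqrt s := by
      rw [Real.le_sqrt (by norm_num) hs0.le]
      linarith
    have hy3 : y ≤ 3 := by
      have h3 : 1 / Real.sqrt s ≤ 2 := by
        rw [div_le_iff₀ hq]
        linarith
      have := hy.2
      linarith
    have hd : s * d y ≤ 1 / 2 := by
      have h3 : (y - 1) ^ 2 ≤ 1 / s := by
        have h4 : y - 1 ≤ 1 / Real.sqrt s := by
          have := hy.2
          linarith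
        have h5 : (y - 1) ^ 2 ≤ (1 / Real.sqrt s) ^ 2 := by
          apply pow_le_pow_left₀ (by linarith) h4
        rw [div_pow, Real.sq_sqrt hs0.le, one_pow] at h5
        exact h5
      have h6 := d_le hy1
      calc s * d y ≤ s * ((y - 1) ^ 2 / 2) := by gcongr
        _ ≤ s * ((1 / s) / 2) := by gcongr
        _ = 1 / 2 := by field_simp
    have e1 : y ^ (s + 1 / 2 - 1) * Real.exp (-(s * y)) =
        y ^ (-(1 / 2) : ℝ) * (Real.exp (-s) * Real.exp (-(s * d y))) := by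
      rw [show s + 1 / 2 - 1 = -(1 / 2) + s by ring, Real.rpow_add hy0, mul_assoc]
      congr 1
      rw [Real.rpow_def_of_pos hy0, ← Real.exp_add, ← Real.exp_add]
      unfold d
      ring_nf
    have e2 : (1 / 2 : ℝ) ≤ y ^ (-(1 / 2) : ℝ) := by
      rw [Real.rpow_neg hy0.le, ← Real.sqrt_eq_rpow]
      have h7 : Real.sqrt y ≤ 2 := by
        rw [Real.sqrt_le_left (by norm_num)]
        linarith
      have h8 : 0 < Real.sqrt y := Real.sqrt_pos.2 hy0
      rw [show (1 / 2 : ℝ) = 2⁻¹ by norm_num]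
      exact inv_anti₀ h8 h7
    have e3 : (1 / 2 : ℝ) ≤ Real.exp (-(s * d y)) := by
      have h9 : Real.exp (-(1 / 2)) ≤ Real.exp (-(s * d y)) := Real.exp_le_exp.2 (by linarith)
      have h10 := Real.add_one_le_exp (-(1 / 2) : ℝ)
      linarith
    rw [e1]
    have h11 := Real.exp_pos (-s)
    calc 1 / 4 * Real.exp (-s) = 1 / 2 * (Real.exp (-s) * (1 / 2)) := by ring
      _ ≤ y ^ (-(1 / 2) : ℝ) * (Real.exp (-s) * Real.exp (-(s * d y))) := by gcongr
  rw [Real.integral_rpow_mul_exp_neg_mul_Ioi (show 0 < s + 1 / 2 by linarith) hs0] at key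
  have hG2 := Real.Gamma_pos_of_pos (show 0 < s + 1 / 2 by linarith)
  have dup := Real.Gamma_mul_Gamma_add_half s
  have hpi : Real.sqrt Real.pi ≤ 2 := by
    rw [Real.sqrt_le_left (by norm_num)]
    have := Real.pi_le_four
    linarith
  have hpi0 : 0 < Real.sqrt Real.pi := Real.sqrt_pos.2 Real.pi_pos
  -- (1/s)^(s+1/2) = (s^s)⁻¹ (√s)⁻¹
  have e4 : (1 / s) ^ (s + 1 / 2) = (s ^ s)⁻¹ * (Real.sqrt s)⁻¹ := by
    rw [one_div, Real.inv_rpow hs0.le, Real.rpow_add hs0, ← Real.sqrt_eq_rpow, mul_inv]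
  rw [e4] at key
  have key2 : 1 / 4 * Real.exp (-s) ≤ (s ^ s)⁻¹ * Real.Gamma (s + 1 / 2) := by
    have := mul_le_mul_of_nonneg_right key hq.le
    have e5 : 1 / 4 * Real.exp (-s) * (1 / Real.sqrt s) * Real.sqrt s =
        1 / 4 * Real.exp (-s) := by field_simp
    have e6 : (s ^ s)⁻¹ * (Real.sqrt s)⁻¹ * Real.Gamma (s + 1 / 2) * Real.sqrt s =
        (s ^ s)⁻¹ * Real.Gamma (s + 1 / 2) := by field_simp
    rw [e5, e6] at this
    exact this
  -- Gamma (2s)
  have e7 : (2 * s) ^ (2 * s) = 2 ^ (2 * s) * (s ^ s * s ^ s) := by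
    rw [Real.mul_rpow (by norm_num) hs0.le, show 2 * s = s + s by ring, Real.rpow_add hs0]
  have h2p : (0 : ℝ) < 2 ^ (2 * s) := Real.rpow_pos_of_pos (by norm_num) _
  have e8 : (2 : ℝ) ^ (1 - 2 * s) = 2 * (2 ^ (2 * s))⁻¹ := by
    rw [Real.rpow_sub (by norm_num), Real.rpow_one]
    rfl
  have e9 : Real.Gamma (2 * s) * (2 ^ (2 * s))⁻¹ =
      Real.Gamma s * Real.Gamma (s + 1 / 2) / (2 * Real.sqrt Real.pi) := by
    rw [e8] at dup
    rw [eq_div_iff (by positivity), dup]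
    ring
  have e10 : L (2 * s) = L s * (Real.exp s * ((s ^ s)⁻¹ * Real.Gamma (s + 1 / 2))) /
      (2 * Real.sqrt Real.pi) := by
    unfold L
    rw [e7, show Real.exp (2 * s) = Real.exp s * Real.exp s by
      rw [← Real.exp_add]; ring_nf]
    have : Real.exp s * Real.exp s * Real.Gamma (2 * s) / (2 ^ (2 * s) * (s ^ s * s ^ s)) =
        Real.exp s * Real.exp s / (s ^ s * s ^ s) * (Real.Gamma (2 * s) * (2 ^ (2 * s))⁻¹) := by
      field_simp
    rw [this, e9]
    field_simp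
  rw [e10]
  have hL := L_pos hs0
  have h12 : 1 / 4 ≤ Real.exp s * ((s ^ s)⁻¹ * Real.Gamma (s + 1 / 2)) := by
    have := mul_le_mul_of_nonneg_left key2 (Real.exp_pos s).le
    have e11 : Real.exp s * (1 / 4 * Real.exp (-s)) = 1 / 4 := by
      rw [Real.exp_neg]
      field_simp
    rw [e11] at this
    exact this
  have h13 : 1 / 16 ≤ Real.exp s * ((s ^ s)⁻¹ * Real.Gamma (s + 1 / 2)) /
      (2 * Real.sqrt Real.pi) := by
    rw [le_div_iff₀ (by positivity)]
    nlinarith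
  calc L s = 16 * (L s * (1 / 16)) := by ring
    _ ≤ 16 * (L s * (Real.exp s * ((s ^ s)⁻¹ * Real.Gamma (s + 1 / 2)) /
      (2 * Real.sqrt Real.pi))) := by gcongr
    _ = _ := by ring

end Pool.Agent.TH645.ZT
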