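import Pool.Agent.TH645.ZT.Gam

/-!
# A perturbed Gamma integral
-/

set_option autoImplicit false

open MeasureTheory Set

namespace Pool.Agent.TH645.ZT

lemma W_nat {n : ℕ} (hn : 1 ≤ n) (y : ℝ) :
    W n y = y ^ (n - 1) * Real.exp (-(n * (y - 1))) := by
  unfold W
  rw [← Real.rpow_natCast, Nat.cast_sub hn, Nat.cast_one]

lemma main_ge {n : ℕ} (hn : 1 ≤ n) {Y : ℝ} (hY : 4 ≤ Y) :
    8 / 9 * L n ≤ ∫ y in Ioc (0 : ℝ) Y, W n y := by
  have hn0 : (0 : ℝ) < n := by exact_mod_cast hn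
  have hn1 : (1 : ℝ) ≤ n := by exact_mod_cast hn
  have hW := W_int hn0
  have hW2 := W2_int hn0
  have hsub : Ioi Y ⊆ Ioi (0 : ℝ) := Ioi_subset_Ioi (by linarith)
  have hsub2 : Ioc 0 Y ⊆ Ioi (0 : ℝ) := fun y hy => hy.1
  have hu : Ioc (0 : ℝ) Y ∪ Ioi Y = Ioi 0 := Ioc_union_Ioi_eq_Ioi (by linarith)
  have h1 : ∫ y in Ioi (0 : ℝ), W n y =
      (∫ y in Ioc (0 : ℝ) Y, W n y) + ∫ y in Ioi Y, W n y := by
    rw [← hu]
    exact setIntegral_union (Ioc_disjoint_Ioi le_rfl) measurableSet_Ioi (hW.mono_set hsub2)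
      (hW.mono_set hsub)
  have h2 : ∫ y in Ioi Y, W n y ≤ ∫ y in Ioi Y, 1 / 9 * (W n y * (y - 1) ^ 2) := by
    refine setIntegral_mono_on (hW.mono_set hsub) ((hW2.mono_set hsub).const_mul _)
      measurableSet_Ioi (fun y hy => ?_)
    have hy' : Y < y := hy
    have h0 := W_nonneg n (show 0 < y by linarith)
    have h9 : 9 ≤ (y - 1) ^ 2 := by nlinarith
    nlinarith
  have h3 : ∫ y in Ioi Y, 1 / 9 * (W n y * (y - 1) ^ 2) ≤ 1 / 9 * (L n / n) := by
    rw [integral_const_mul, ← W2_integral hn0]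
    refine mul_le_mul_of_nonneg_left ?_ (by norm_num)
    refine setIntegral_mono_set hW2 ?_ (Filter.Eventually.of_forall hsub)
    refine (ae_restrict_iff' measurableSet_Ioi).2 (Filter.Eventually.of_forall fun y hy => ?_)
    exact mul_nonneg (W_nonneg n hy) (sq_nonneg _)
  have h4 : L n / n ≤ L n := div_le_self (L_pos hn0).le hn1
  rw [W_integral hn0] at h1
  linarith

theorem ker (n : ℕ) (hn : 1 ≤ n) (Y η : ℝ) (hY : 4 ≤ Y) (hη0 : 0 ≤ η) (hη : η ≤ 1 / 128)
    (R : ℝ → ℂ) (hR : ContinuousOn R (Icc 0 Y))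
    (h1 : ∀ y ∈ Ioc 0 Y, ‖R y‖ ≤ η * (n * (y - 1) ^ 2))
    (h2 : ∀ y ∈ Ioc 0 Y, ‖R y‖ ≤ n / 2 * d y) :
    L n / 2 ≤ ‖∫ y in (0 : ℝ)..Y, (y : ℂ) ^ (n - 1) * Complex.exp (-(n * (y - 1))) *
      Complex.exp (R y)‖ := by
  have hn0 : (0 : ℝ) < n := by exact_mod_cast hn
  have hn1 : (1 : ℝ) ≤ n := by exact_mod_cast hn
  have hY0 : (0 : ℝ) ≤ Y := by linarith
  have hsub2 : Ioc 0 Y ⊆ Ioi (0 : ℝ) := fun y hy => hy.1
  set F : ℝ → ℂ := fun y => (y : ℂ) ^ (n - 1) * Complex.exp (-(n * (y - 1))) *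
      Complex.exp (R y) with hF
  set G : ℝ → ℂ := fun y => (y : ℂ) ^ (n - 1) * Complex.exp (-(n * (y - 1))) with hG
  have hGc : Continuous G := by
    rw [hG]
    fun_prop
  have hFc : ContinuousOn F (Icc 0 Y) := by
    rw [hF]
    exact hGc.continuousOn.mul hR.cexp
  have hFi : IntervalIntegrable F volume 0 Y := by
    apply ContinuousOn.intervalIntegrable
    rwa [uIcc_of_le hY0]
  have hGi : IntervalIntegrable G volume 0 Y := hGc.intervalIntegrable 0 Y
  have e1 : ∫ y in (0 : ℝ)..Y, F y = (∫ y in (0 : ℝ)..Y, G y) + ∫ y in (0 : ℝ)..Y, (F y - G y) := by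
    rw [intervalIntegral.integral_sub hFi hGi]
    ring
  have eG : ∀ y : ℝ, G y = ((W n y : ℝ) : ℂ) := by
    intro y
    rw [W_nat hn y, hG]
    push_cast
    ring_nf
  have e2 : ∫ y in (0 : ℝ)..Y, G y = ((∫ y in Ioc (0 : ℝ) Y, W n y : ℝ) : ℂ) := by
    rw [← intervalIntegral.integral_of_le hY0, ← intervalIntegral.integral_ofReal]
    exact intervalIntegral.integral_congr (fun y _ => eG y)
  have hm := main_ge hn hY
  have hL := L_pos hn0
  have e3 : 8 / 9 * L n ≤ ‖∫ y in (0 : ℝ)..Y, G y‖ := by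
    rw [e2, Complex.norm_real, Real.norm_eq_abs]
    exact hm.trans (le_abs_self _)
  -- the error
  have hs0 : (0 : ℝ) < n / 2 := by positivity
  have hV := W2_int hs0
  have e4 : ‖∫ y in (0 : ℝ)..Y, (F y - G y)‖ ≤ 1 / 4 * L n := by
    have b1 : ∀ y ∈ Ioc 0 Y, ‖F y - G y‖ ≤ η * n * (W (n / 2) y * (y - 1) ^ 2) := by
      intro y hy
      have hy0 : 0 < y := hy.1
      have c1 : F y - G y = G y * (Complex.exp (R y) - 1) := by
        rw [hF, hG]
        ring
      rw [c1, norm_mul, eG y, Complex.norm_real, Real.norm_eq_abs, abs_of_nonneg (W_nonneg n hy0)]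
      have c2 : ‖Complex.exp (R y) - 1‖ ≤ ‖R y‖ * Real.exp ‖R y‖ := by
        have := Complex.norm_exp_sub_sum_le_norm_mul_exp (R y) 1
        simpa using this
      have c3 : Real.exp ‖R y‖ ≤ Real.exp (n / 2 * d y) := Real.exp_le_exp.2 (h2 y hy)
      have c4 : W n y * Real.exp (n / 2 * d y) = W (n / 2) y := by
        rw [W_eq _ hy0, W_eq _ hy0, mul_assoc, ← Real.exp_add]
        congr 2
        ring
      have c5 := W_nonneg n hy0
      calc W n y * ‖Complex.exp (R y) - 1‖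
          ≤ W n y * ((η * (n * (y - 1) ^ 2)) * Real.exp (n / 2 * d y)) := by
            refine mul_le_mul_of_nonneg_left (c2.trans ?_) c5
            exact mul_le_mul (h1 y hy) c3 (Real.exp_pos _).le (by positivity)
        _ = η * (n * (y - 1) ^ 2) * (W n y * Real.exp (n / 2 * d y)) := by ring
        _ = _ := by rw [c4]; ring
    have b2 : ‖∫ y in (0 : ℝ)..Y, (F y - G y)‖ ≤
        ∫ y in Ioc (0 : ℝ) Y, η * n * (W (n / 2) y * (y - 1) ^ 2) := by
      rw [intervalIntegral.integral_of_le hY0]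
      refine norm_integral_le_of_norm_le ((hV.mono_set hsub2).const_mul _) ?_
      exact (ae_restrict_iff' measurableSet_Ioc).2 (Filter.Eventually.of_forall b1)
    have b3 : ∫ y in Ioc (0 : ℝ) Y, η * n * (W (n / 2) y * (y - 1) ^ 2) ≤
        η * n * (L (n / 2) / (n / 2)) := by
      rw [integral_const_mul, ← W2_integral hs0]
      refine mul_le_mul_of_nonneg_left ?_ (by positivity)
      refine setIntegral_mono_set hV ?_ (Filter.Eventually.of_forall hsub2)
      refine (ae_restrict_iff' measurableSet_Ioi).2 (Filter.Eventually.of_forall fun y hy => ?_)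
      exact mul_nonneg (W_nonneg _ hy) (sq_nonneg _)
    have b4 : L (n / 2) ≤ 16 * L n := by
      have := L_two (s := n / 2) (by linarith)
      rwa [show 2 * ((n : ℝ) / 2) = n by ring] at this
    have b5 : η * n * (L (n / 2) / (n / 2)) = 2 * η * L (n / 2) := by
      field_simp
    have b6 : 2 * η * L (n / 2) ≤ 1 / 4 * L n := by
      calc 2 * η * L (n / 2) ≤ 2 * (1 / 128) * (16 * L n) := by
            have := L_pos hs0
            gcongr
        _ = _ := by ring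
    linarith [b2, b3, b5, b6]
  rw [e1]
  have e5 := norm_sub_le_norm_add (∫ y in (0 : ℝ)..Y, G y) (∫ y in (0 : ℝ)..Y, (F y - G y))
  linarith

end Pool.Agent.TH645.ZT
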